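import Mathlib

/-!
# The power `2 ^ n` of the binary pattern-count matrix modulo two
-/

set_option autoImplicit false

namespace Pool.Agent.Results.MP_b7336c_co.PatternCountPower

/-- `e j i` is the number of occurrences of the word `(j)_2` as a block of consecutive digits in the word
`(i)_2`. (`Nat.digits 2 i` is the list of the binary digits of `i` which begins with the last digit; its
tails are the digit lists of the numbers obtained by deleting last digits of `i`, and `(j)_2` occurs in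
`(i)_2` followed by `k` digits if and only if the tail number `k` has the prefix `Nat.digits 2 j`.) -/
def e (j i : ℕ) : ℕ := ((Nat.digits 2 i).tails.filter fun t => Nat.digits 2 j <+: t).length

/-- The matrix `M_n` with `N = 2 ^ (2 ^ n)` rows and columns. The row and the column number `i + 1` have the
index `i : Fin N`. -/
def M (n : ℕ) : Matrix (Fin (2 ^ 2 ^ n)) (Fin (2 ^ 2 ^ n)) ℤ :=
  fun i j => (e ((j : ℕ) + 1) ((i : ℕ) + 1) : ℤ)

/-- The matrix `E_{N,1}`, whose only nonzero entry is a `1` in row `N`, column `1`. -/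
def E (n : ℕ) : Matrix (Fin (2 ^ 2 ^ n)) (Fin (2 ^ 2 ^ n)) ℤ :=
  fun i j => if (i : ℕ) + 1 = 2 ^ 2 ^ n ∧ (j : ℕ) + 1 = 1 then 1 else 0

/-! ### Suffixes -/

/-- the word of `j` is a suffix of the word of `i` -/
def s (j i : ℕ) : ℕ := if Nat.digits 2 j <+: Nat.digits 2 i then 1 else 0

lemma e_zero {j : ℕ} (hj : j ≠ 0) : e j 0 = 0 := by
  unfold e
  have h : ¬ Nat.digits 2 j = [] := by
    rw [Nat.digits_eq_nil_iff_eq_zero]
    exact hj
  simp [h]

lemma e_rec (j : ℕ) {i : ℕ} (hi : i ≠ 0) : e j i = s j i + e j (i / 2) := by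
  unfold e s
  rw [Nat.digits_def' (by norm_num) (Nat.pos_of_ne_zero hi), List.tails_cons, List.filter_cons]
  by_cases h : Nat.digits 2 j <+: i % 2 :: Nat.digits 2 (i / 2)
  · simp only [h, decide_true, if_true, List.length_cons]
    exact Nat.add_comm _ _
  · simp [h]

lemma len_eq {j : ℕ} (hj : j ≠ 0) : (Nat.digits 2 j).length = Nat.log 2 j + 1 :=
  Nat.length_digits 2 j (by norm_num) hj

lemma prefix_iff {j i : ℕ} (hj : j ≠ 0) :
    Nat.digits 2 j <+: Nat.digits 2 i ↔ i % 2 ^ (Nat.log 2 j + 1) = j := by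
  have hlt : j < 2 ^ (Nat.log 2 j + 1) := Nat.lt_pow_succ_log_self (by norm_num) j
  constructor
  · rintro ⟨t, ht⟩
    have h1 : i = j + 2 ^ (Nat.log 2 j + 1) * Nat.ofDigits 2 t := by
      rw [← len_eq hj]
      conv_lhs => rw [← Nat.ofDigits_digits 2 i, ← ht, Nat.ofDigits_append, Nat.ofDigits_digits]
    rw [h1, Nat.add_mul_mod_self_left, Nat.mod_eq_of_lt hlt]
  · intro h
    refine ⟨Nat.digits 2 (i / 2 ^ (Nat.log 2 j + 1)), ?_⟩
    rw [Nat.digits_append_digits (by norm_num), len_eq hj]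
    have h1 := Nat.mod_add_div i (2 ^ (Nat.log 2 j + 1))
    rw [h] at h1
    rw [h1]

/-- the word of `lam i` is the word of `i` without the first digit and the zeros which follow it -/
def lam (i : ℕ) : ℕ := i - 2 ^ Nat.log 2 i

lemma pow_log_le {i : ℕ} (hi : i ≠ 0) : 2 ^ Nat.log 2 i ≤ i := Nat.pow_log_le_self 2 hi

lemma s_rec {j i : ℕ} (hj : j ≠ 0) (hi : i ≠ 0) : s j i = (if i = j then 1 else 0) + s j (lam i) := by
  have h1 : 2 ^ Nat.log 2 i ≤ i := pow_log_le hi
  have h2 : i < 2 ^ (Nat.log 2 i + 1) := Nat.lt_pow_succ_log_self (by norm_num) i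
  have h3 : 2 ^ Nat.log 2 j ≤ j := pow_log_le hj
  have h4 : j < 2 ^ (Nat.log 2 j + 1) := Nat.lt_pow_succ_log_self (by norm_num) j
  unfold s
  simp only [prefix_iff hj]
  rcases lt_trichotomy (Nat.log 2 j) (Nat.log 2 i) with h | h | h
  · have h5 : i ≠ j := by
      intro he
      rw [he] at h
      exact lt_irrefl _ h
    have h6 : i % 2 ^ (Nat.log 2 j + 1) = lam i % 2 ^ (Nat.log 2 j + 1) := by
      obtain ⟨c, hc⟩ := Nat.pow_dvd_pow 2 (Nat.succ_le_of_lt h)
      unfold lam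
      conv_lhs => rw [← Nat.sub_add_cancel h1]
      rw [show Nat.log 2 j + 1 = (Nat.log 2 j).succ from rfl]
      conv_lhs => rw [hc]
      rw [Nat.add_mul_mod_self_left, ← hc]
    rw [h6, if_neg h5, Nat.zero_add]
  · have h5 : i % 2 ^ (Nat.log 2 j + 1) = i := Nat.mod_eq_of_lt (by rw [h]; exact h2)
    have h6 : lam i % 2 ^ (Nat.log 2 j + 1) ≠ j := by
      intro he
      have h7 : lam i % 2 ^ (Nat.log 2 j + 1) ≤ lam i := Nat.mod_le _ _
      have h8 : lam i < 2 ^ Nat.log 2 i := by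
        unfold lam
        rw [pow_succ] at h2
        omega
      rw [he] at h7
      rw [h] at h3
      omega
    rw [h5, if_neg h6, Nat.add_zero]
  · have h5 : i < 2 ^ Nat.log 2 j :=
      h2.trans_le (Nat.pow_le_pow_right (by norm_num) (Nat.succ_le_of_lt h))
    have h6 : i % 2 ^ (Nat.log 2 j + 1) ≠ j := by
      intro he
      have := Nat.mod_le i (2 ^ (Nat.log 2 j + 1))
      omega
    have h7 : lam i % 2 ^ (Nat.log 2 j + 1) ≠ j := by
      intro he
      have := Nat.mod_le (lam i) (2 ^ (Nat.log 2 j + 1))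
      have h8 : lam i ≤ i := Nat.sub_le _ _
      omega
    have h8 : i ≠ j := by omega
    rw [if_neg h6, if_neg h7, if_neg h8]

lemma lam_lt {m i : ℕ} (h : i < 2 ^ (m + 1)) : lam i < 2 ^ m := by
  rcases Nat.eq_zero_or_pos i with rfl | hi
  · exact Nat.pow_pos (by norm_num)
  have h1 : 2 ^ Nat.log 2 i ≤ i := pow_log_le hi.ne'
  have h2 : i < 2 ^ (Nat.log 2 i + 1) := Nat.lt_pow_succ_log_self (by norm_num) i
  have h3 : Nat.log 2 i ≤ m := by
    have : 2 ^ Nat.log 2 i < 2 ^ (m + 1) := h1.trans_lt h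
    have := (Nat.pow_lt_pow_iff_right (by norm_num : 1 < 2)).1 this
    omega
  have h4 : 2 ^ Nat.log 2 i ≤ 2 ^ m := Nat.pow_le_pow_right (by norm_num) h3
  unfold lam
  rw [pow_succ] at h2
  omega

lemma lam_zero : lam 0 = 0 := rfl

lemma lam_iter_zero (m : ℕ) : lam^[m] 0 = 0 := by
  induction m with
  | zero => rfl
  | succ m ih => rw [Function.iterate_succ_apply, lam_zero, ih]

lemma lam_iter {m i : ℕ} (h : i < 2 ^ m) : lam^[m] i = 0 := by
  induction m generalizing i with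
  | zero =>
    have : i = 0 := by simpa using h
    rw [this]
    rfl
  | succ m ih =>
    rw [Function.iterate_succ_apply]
    exact ih (lam_lt h)

lemma half_iter (m i : ℕ) : (fun i : ℕ => i / 2)^[m] i = i / 2 ^ m := by
  induction m generalizing i with
  | zero => simp
  | succ m ih => rw [Function.iterate_succ_apply, ih, Nat.div_div_eq_div_mul, pow_succ, mul_comm]

lemma lam_half (i : ℕ) : lam (i / 2) = lam i / 2 := by
  rcases Nat.lt_or_ge i 2 with h | h
  · interval_cases i <;> rfl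
  · have h1 : 1 ≤ Nat.log 2 i := Nat.log_pos (by norm_num) h
    obtain ⟨L, hL⟩ : ∃ L, Nat.log 2 i = L + 1 := ⟨Nat.log 2 i - 1, by omega⟩
    unfold lam
    rw [Nat.log_div_base, hL, Nat.add_sub_cancel, pow_succ]
    omega

/-! ### The matrices -/

section mat

variable (N : ℕ)

/-- the matrix of a function -/
def D (f : ℕ → ℕ) : Matrix (Fin N) (Fin N) (ZMod 2) :=
  fun i j => if f ((i : ℕ) + 1) = (j : ℕ) + 1 then 1 else 0

/-- the matrix with the entries `h (j + 1) (i + 1)` -/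
def H (h : ℕ → ℕ → ZMod 2) : Matrix (Fin N) (Fin N) (ZMod 2) :=
  fun i j => h ((j : ℕ) + 1) ((i : ℕ) + 1)

variable {N}

lemma D_mul_H {f : ℕ → ℕ} (hf : ∀ i, f i ≤ i) {h : ℕ → ℕ → ZMod 2} (h0 : ∀ j, j ≠ 0 → h j 0 = 0) :
    D N f * H N h = H N (fun j i => h j (f i)) := by
  ext i j
  rw [Matrix.mul_apply]
  unfold D H
  simp only [ite_mul, one_mul, zero_mul]
  by_cases hz : f ((i : ℕ) + 1) = 0
  · rw [hz, h0 _ (Nat.succ_ne_zero _)]
    refine Finset.sum_eq_zero fun k _ => ?_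
    rw [if_neg (by omega)]
  · obtain ⟨m, hm⟩ := Nat.exists_eq_succ_of_ne_zero hz
    have hmN : m < N := by
      have h1 := hf ((i : ℕ) + 1)
      have h2 := i.isLt
      omega
    rw [Finset.sum_eq_single (⟨m, hmN⟩ : Fin N)]
    · rw [if_pos hm, hm]
    · intro k _ hk
      rw [if_neg]
      intro h3
      apply hk
      apply Fin.ext
      change (k : ℕ) = m
      omega
    · intro h3
      exact absurd (Finset.mem_univ _) h3

lemma D_eq_H (g : ℕ → ℕ) : D N g = H N (fun j i => if g i = j then 1 else 0) := rfl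

lemma D_mul_D {f g : ℕ → ℕ} (hf : ∀ i, f i ≤ i) (hg : g 0 = 0) :
    D N f * D N g = D N (g ∘ f) := by
  rw [D_eq_H g, D_mul_H hf]
  · rfl
  · intro j hj
    rw [hg, if_neg (Ne.symm hj)]

lemma D_id : D N id = 1 := by
  ext i j
  unfold D
  rw [Matrix.one_apply]
  by_cases h : i = j
  · rw [h, if_pos rfl]
    exact if_pos rfl
  · rw [if_neg h]
    refine if_neg ?_
    intro h1
    apply h
    apply Fin.ext
    change (i : ℕ) + 1 = (j : ℕ) + 1 at h1
    omega

lemma D_pow {f : ℕ → ℕ} (hf : ∀ i, f i ≤ i) (k : ℕ) : D N f ^ k = D N (f^[k]) := by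
  have h0 : f 0 = 0 := Nat.le_zero.1 (hf 0)
  induction k with
  | zero => rw [pow_zero, Function.iterate_zero, D_id]
  | succ k ih =>
    have h1 : ∀ k, f^[k] 0 = 0 := by
      intro k
      induction k with
      | zero => rfl
      | succ k ih => rw [Function.iterate_succ_apply, h0, ih]
    rw [pow_succ', ih, D_mul_D hf (h1 k), Function.iterate_succ]

end mat

lemma lam_le (i : ℕ) : lam i ≤ i := Nat.sub_le _ _

lemma half_le (i : ℕ) : i / 2 ≤ i := Nat.div_le_self _ _

/-- `(1 - λ) (1 - ρ) M = 1` -/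
lemma inv_M (N : ℕ) : (1 - D N lam) * ((1 - D N fun i => i / 2) * H N fun j i => (e j i : ZMod 2)) = 1 := by
  have h1 : (1 - D N fun i => i / 2) * H N (fun j i => (e j i : ZMod 2)) =
      H N fun j i => (s j i : ZMod 2) := by
    rw [sub_mul, one_mul, D_mul_H half_le (fun j hj => by rw [e_zero hj, Nat.cast_zero])]
    ext i j
    change (e ((j : ℕ) + 1) ((i : ℕ) + 1) : ZMod 2) - (e ((j : ℕ) + 1) (((i : ℕ) + 1) / 2) : ZMod 2) =
      (s ((j : ℕ) + 1) ((i : ℕ) + 1) : ZMod 2)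
    rw [e_rec _ (Nat.succ_ne_zero _), Nat.cast_add, add_sub_cancel_right]
  have h0 : ∀ j, j ≠ 0 → (s j 0 : ZMod 2) = 0 := by
    intro j hj
    have : s j 0 = 0 := by
      unfold s
      refine if_neg ?_
      rw [prefix_iff hj, Nat.zero_mod]
      exact Ne.symm hj
    rw [this, Nat.cast_zero]
  rw [h1, sub_mul, one_mul, D_mul_H lam_le h0]
  ext i j
  change (s ((j : ℕ) + 1) ((i : ℕ) + 1) : ZMod 2) - (s ((j : ℕ) + 1) (lam ((i : ℕ) + 1)) : ZMod 2) = _
  rw [s_rec (Nat.succ_ne_zero _) (Nat.succ_ne_zero _), Nat.cast_add, add_sub_cancel_right,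
    Matrix.one_apply]
  by_cases h : i = j
  · rw [h, if_pos rfl, if_pos rfl, Nat.cast_one]
  · rw [if_neg h, if_neg, Nat.cast_zero]
    intro h1
    apply h
    apply Fin.ext
    omega

/-- **Theorem.** For every `n ≥ 1`, `M_n ^ (2 ^ n)` is congruent to `I + E_{N,1}` modulo two. -/
theorem result : ∀ n : ℕ, 1 ≤ n → ∀ i j : Fin (2 ^ 2 ^ n),
    (M n ^ 2 ^ n) i j ≡ (1 + E n) i j [ZMOD 2] := by
  intro n _
  have hN : (2 ^ 2 ^ n : ℕ) ≠ 0 := by positivity
  obtain ⟨N, hNdef⟩ : ∃ N, N = 2 ^ 2 ^ n := ⟨_, rfl⟩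
  -- the matrices modulo two
  have key : (H (2 ^ 2 ^ n) fun j i => (e j i : ZMod 2)) ^ 2 ^ n =
      1 + D (2 ^ 2 ^ n) (fun i => i / 2 ^ 2 ^ n) := by
    have hchar : CharP (Matrix (Fin (2 ^ 2 ^ n)) (Fin (2 ^ 2 ^ n)) (ZMod 2)) 2 := by
      have : Nonempty (Fin (2 ^ 2 ^ n)) := ⟨⟨0, Nat.pos_of_ne_zero hN⟩⟩
      infer_instance
    set A := D (2 ^ 2 ^ n) lam with hA
    set B := D (2 ^ 2 ^ n) (fun i => i / 2) with hB
    set X := H (2 ^ 2 ^ n) (fun j i => (e j i : ZMod 2)) with hX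
    set C := D (2 ^ 2 ^ n) (fun i => i / 2 ^ 2 ^ n) with hC
    have hprime : Fact (Nat.Prime 2) := ⟨Nat.prime_two⟩
    have hAB : A * B = B * A := by
      rw [hA, hB, D_mul_D lam_le rfl, D_mul_D half_le rfl]
      congr 1
      funext i
      exact (lam_half i).symm
    have hcomm : Commute (1 - A) (1 - B) := by
      have : Commute A B := hAB
      exact (Commute.sub_left (Commute.one_left _) ((Commute.one_right _).sub_right this))
    have h1 : ((1 - A) * (1 - B)) * X = 1 := by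
      rw [mul_assoc]
      exact inv_M _
    have h2 : X * ((1 - A) * (1 - B)) = 1 := mul_eq_one_comm.1 h1
    have hA0 : A ^ 2 ^ n = 0 := by
      rw [hA, D_pow lam_le]
      ext i j
      unfold D
      have h3 : lam^[2 ^ n] ((i : ℕ) + 1) = 0 := by
        rcases Nat.lt_or_ge ((i : ℕ) + 1) (2 ^ 2 ^ n) with h | h
        · exact lam_iter h
        · have h4 : (i : ℕ) + 1 = 2 ^ 2 ^ n := le_antisymm i.isLt h
          obtain ⟨m, hm⟩ : ∃ m, 2 ^ n = m + 1 :=
            Nat.exists_eq_succ_of_ne_zero (by positivity)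
          rw [h4, hm, Function.iterate_succ_apply]
          have h5 : lam (2 ^ (m + 1)) = 0 := by
            unfold lam
            rw [Nat.log_pow (by norm_num), Nat.sub_self]
          rw [h5, lam_iter_zero]
      rw [h3, if_neg (by omega)]
      rfl
    have hB0 : B ^ 2 ^ n = C := by
      rw [hB, D_pow half_le]
      congr 1
      funext i
      exact half_iter _ _
    have hC0 : C * C = 0 := by
      rw [hC, D_mul_D (f := fun i => i / 2 ^ 2 ^ n) (g := fun i => i / 2 ^ 2 ^ n)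
        (fun i => Nat.div_le_self _ _) (Nat.zero_div _)]
      ext i j
      unfold D
      have h3 : ((i : ℕ) + 1) / 2 ^ 2 ^ n / 2 ^ 2 ^ n = 0 := by
        have h4 := i.isLt
        have h5 : 2 ≤ 2 ^ 2 ^ n := by
          calc 2 = 2 ^ 1 := rfl
            _ ≤ 2 ^ 2 ^ n := Nat.pow_le_pow_right (by norm_num) Nat.one_le_two_pow
        have h6 : ((i : ℕ) + 1) / 2 ^ 2 ^ n ≤ 1 :=
          (Nat.div_le_div_right (Nat.succ_le_of_lt h4)).trans (Nat.div_self (Nat.pos_of_ne_zero hN)).le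
        exact Nat.div_eq_of_lt (by omega)
      change (if ((i : ℕ) + 1) / 2 ^ 2 ^ n / 2 ^ 2 ^ n = (j : ℕ) + 1 then (1 : ZMod 2) else 0) = 0
      rw [h3, if_neg (by omega)]
    have h3 : ((1 - A) * (1 - B)) ^ 2 ^ n = 1 - C := by
      rw [hcomm.mul_pow, sub_pow_char_pow_of_commute 2 n (Commute.one_left A),
        sub_pow_char_pow_of_commute 2 n (Commute.one_left B), hA0, hB0, one_pow, sub_zero, one_mul]
    have h4 : (1 - C) * X ^ 2 ^ n = 1 := by
      have hc : Commute ((1 - A) * (1 - B)) X := h1.trans h2.symm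
      rw [← h3, ← hc.mul_pow, h1, one_pow]
    have h5 : (1 + C) * (1 - C) = 1 := by
      rw [mul_sub, mul_one, add_mul, one_mul, hC0, add_zero, add_sub_cancel_right]
    calc X ^ 2 ^ n = ((1 + C) * (1 - C)) * X ^ 2 ^ n := by rw [h5, one_mul]
      _ = 1 + C := by rw [mul_assoc, h4, mul_one]
  intro i j
  have hmap : (M n ^ 2 ^ n).map (Int.castRingHom (ZMod 2)) =
      (1 + E n).map (Int.castRingHom (ZMod 2)) := by
    have h1 : (M n).map (Int.castRingHom (ZMod 2)) =
        H (2 ^ 2 ^ n) fun j i => (e j i : ZMod 2) := by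
      ext i j
      simp [M, H]
    have h2 : (E n).map (Int.castRingHom (ZMod 2)) = D (2 ^ 2 ^ n) (fun i => i / 2 ^ 2 ^ n) := by
      ext i j
      have h4 := i.isLt
      change (Int.castRingHom (ZMod 2)) (if (i : ℕ) + 1 = 2 ^ 2 ^ n ∧ (j : ℕ) + 1 = 1 then 1 else 0) =
        if ((i : ℕ) + 1) / 2 ^ 2 ^ n = (j : ℕ) + 1 then 1 else 0
      by_cases h : (i : ℕ) + 1 = 2 ^ 2 ^ n
      · have h5 : ((i : ℕ) + 1) / 2 ^ 2 ^ n = 1 := by
          rw [h, Nat.div_self (Nat.pos_of_ne_zero hN)]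
        rw [h5]
        by_cases h6 : (j : ℕ) + 1 = 1
        · rw [if_pos ⟨h, h6⟩, if_pos h6.symm, map_one]
        · rw [if_neg (fun h7 => h6 h7.2), if_neg (Ne.symm h6), map_zero]
      · have h5 : ((i : ℕ) + 1) / 2 ^ 2 ^ n = 0 := Nat.div_eq_of_lt (by omega)
        rw [h5, if_neg (fun h7 => h h7.1), if_neg (by omega), map_zero]
    have h3 : (1 + E n).map (Int.castRingHom (ZMod 2)) =
        1 + (E n).map (Int.castRingHom (ZMod 2)) := by
      rw [Matrix.map_add _ (map_add _), Matrix.map_one _ (map_zero _) (map_one _)]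
    rw [Matrix.map_pow, h1, key, h3, h2]
  have h5 := congrFun (congrFun hmap i) j
  rw [Matrix.map_apply, Matrix.map_apply] at h5
  exact (ZMod.intCast_eq_intCast_iff _ _ 2).1 h5

end Pool.Agent.Results.MP_b7336c_co.PatternCountPower
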